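import Mathlib
import Pool.Agent.Q201.AR.Stm
import Pool.Agent.Helper227.EN.Alg

set_option autoImplicit false
set_option linter.unusedSectionVars false

open FirstOrder FirstOrder.Language Pool.Agent.Helper227.EN
open Q201.AR

namespace Pool.Agent.Q214.AR

/-- the formula of Cantor's pairing -/
def cpi : LA.Formula (Fin 3) :=
  Term.equal (tadd (tadd (tmul (tadd (Term.var 0) (Term.var 1))
    (tadd (tadd (Term.var 0) (Term.var 1)) t1)) (Term.var 1)) (Term.var 1))
    (tadd (Term.var 2) (Term.var 2))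

/-- the first induction formula -/
def ind1 : LA.BoundedFormula (Empty ⊕ Fin 0) 1 :=
  BoundedFormula.ex (Term.bdEqual (tadd (Term.var (Sum.inr 1)) (Term.var (Sum.inr 1)))
    (tmul (Term.var (Sum.inr 0)) (tadd (Term.var (Sum.inr 0)) t1)))

/-- the second induction formula -/
def ind2 : LA.BoundedFormula (Empty ⊕ Fin 0) 1 :=
  BoundedFormula.ex (BoundedFormula.ex (Term.bdEqual
    (tadd (tadd (tmul (tadd (Term.var (Sum.inr 1)) (Term.var (Sum.inr 2)))
      (tadd (tadd (Term.var (Sum.inr 1)) (Term.var (Sum.inr 2))) t1)) (Term.var (Sum.inr 2)))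
      (Term.var (Sum.inr 2)))
    (tadd (Term.var (Sum.inr 0)) (Term.var (Sum.inr 0)))))

theorem ind {M : Type} [LA.Structure M] [Nonempty M] (h : M ⊨ PA)
    (φ : LA.BoundedFormula (Empty ⊕ Fin 0) 1) (z o : M)
    (hz : z = Structure.funMap (L := LA) AF.zero ![])
    (ho : o = Structure.funMap (L := LA) AF.one ![])
    (R : M → Prop) (hR : ∀ x, φ.Realize (Sum.elim default default) (fun _ => x) ↔ R x)
    (h0 : R z) (h1 : ∀ x, R x → R (Structure.funMap (L := LA) AF.add ![x, o])) : ∀ x, R x := by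
  have h2 : M ⊨ indAx φ := Theory.realize_sentence_of_mem PA (Or.inr ⟨0, φ, rfl⟩)
  rw [realize_indAx φ z o hz ho] at h2
  intro x
  exact (hR x).mp (h2 default ((hR z).mpr h0) (fun y hy => (hR _).mpr (h1 y ((hR y).mp hy))) x)

section alg

variable {M : Type} [CommSemiring M] [LinearOrder M] [IsStrictOrderedRing M]
  [CanonicallyOrderedAdd M]

theorem dbl {a b : M} (h : a + a = b + b) : a = b := by
  rcases lt_trichotomy a b with h1 | h1 | h1
  · exact absurd h (add_lt_add h1 h1).ne
  · exact h1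
  · exact absurd h (add_lt_add h1 h1).ne'

theorem succ_of_pos (disc : ∀ x : M, x < 1 → x = 0) {x : M} (h : x ≠ 0) : ∃ y, x = y + 1 := by
  have h1 : 1 ≤ x := by
    by_contra hc
    exact h (disc x (not_le.mp hc))
  obtain ⟨y, hy⟩ := exists_add_of_le h1
  exact ⟨y, by rw [hy, add_comm]⟩

theorem no_lt (disc : ∀ x : M, x < 1 → x = 0) {x y x' y' : M} (h : x + y < x' + y')
    (e : (x + y) * (x + y + 1) + y + y = (x' + y') * (x' + y' + 1) + y' + y') : False := by
  obtain ⟨c, hc⟩ := exists_add_of_le h.le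
  have hc0 : c ≠ 0 := by
    intro h0
    rw [h0, add_zero] at hc
    exact h.ne hc.symm
  obtain ⟨c', rfl⟩ := succ_of_pos disc hc0
  rw [hc] at e
  have e2 : (x + y + (c' + 1)) * (x + y + (c' + 1) + 1) + y' + y' =
      ((x + y) * (x + y + 1) + y + y) +
        ((x + x + 1 + c' * (2 * (x + y) + 3 + c') + y' + y') + 1) := by ring
  rw [e2] at e
  have h3 : (x + x + 1 + c' * (2 * (x + y) + 3 + c') + y' + y') + 1 = 0 := by
    have h4 : ((x + y) * (x + y + 1) + y + y) + 0 = ((x + y) * (x + y + 1) + y + y) +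
        ((x + x + 1 + c' * (2 * (x + y) + 3 + c') + y' + y') + 1) := by
      rw [add_zero]; exact e
    exact (add_left_cancel h4).symm
  have h5 : (0 : M) < (x + x + 1 + c' * (2 * (x + y) + 3 + c') + y' + y') + 1 :=
    lt_of_lt_of_le zero_lt_one le_add_self
  exact h5.ne' h3

end alg

/-- JOB PAIR -/
theorem t_PAIR : S_PAIR := by
  refine ⟨cpi, ?_⟩
  intro M _ _ hM
  have hM' : M ⊨ PAminus := Theory.Model.mono hM Set.subset_union_left
  obtain ⟨i1, i2, i3, i4, C⟩ := exists_alg M hM'
  have r1 : ∀ s : M, ∃ t : M, t + t = s * (s + 1) := by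
    refine ind hM ind1 0 1 C.zero.symm C.one.symm _ ?_ ?_ ?_
    · intro x
      simp only [ind1, BoundedFormula.realize_ex, BoundedFormula.realize_bdEqual, ea_tadd,
        ea_tmul, ea_t1, C.add, C.mul, C.one]
      rfl
    · exact ⟨0, by ring⟩
    · rintro x ⟨t, ht⟩
      rw [C.add]
      refine ⟨t + (x + 1), ?_⟩
      calc t + (x + 1) + (t + (x + 1)) = (t + t) + (x + 1) + (x + 1) := by ring
        _ = x * (x + 1) + (x + 1) + (x + 1) := by rw [ht]
        _ = _ := by ring
  have r2 : ∀ z : M, ∃ x y : M, (x + y) * (x + y + 1) + y + y = z + z := by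
    refine ind hM ind2 0 1 C.zero.symm C.one.symm _ ?_ ?_ ?_
    · intro x
      simp only [ind2, BoundedFormula.realize_ex, BoundedFormula.realize_bdEqual, ea_tadd,
        ea_tmul, ea_t1, C.add, C.mul, C.one]
      rfl
    · exact ⟨0, 0, by ring⟩
    · rintro z ⟨x, y, h⟩
      rw [C.add]
      by_cases hx : x = 0
      · subst hx
        refine ⟨y + 1, 0, ?_⟩
        calc (y + 1 + 0) * (y + 1 + 0 + 1) + 0 + 0 =
              ((0 + y) * (0 + y + 1) + y + y) + 1 + 1 := by ring
          _ = z + z + 1 + 1 := by rw [h]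
          _ = _ := by ring
      · obtain ⟨x', rfl⟩ := succ_of_pos C.disc hx
        refine ⟨x', y + 1, ?_⟩
        calc (x' + (y + 1)) * (x' + (y + 1) + 1) + (y + 1) + (y + 1) =
              ((x' + 1 + y) * (x' + 1 + y + 1) + y + y) + 1 + 1 := by ring
          _ = z + z + 1 + 1 := by rw [h]
          _ = _ := by ring
  have r3 : ∀ x y : M, ∃ z : M, (x + y) * (x + y + 1) + y + y = z + z := by
    intro x y
    obtain ⟨t, ht⟩ := r1 (x + y)
    refine ⟨t + y, ?_⟩
    rw [← ht]; ring
  choose p hp using r3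
  refine ⟨p, ⟨?_, ?_⟩, ?_⟩
  · rintro ⟨x, y⟩ ⟨x', y'⟩ h
    change p x y = p x' y' at h
    have e : (x + y) * (x + y + 1) + y + y = (x' + y') * (x' + y' + 1) + y' + y' := by
      rw [hp, hp, h]
    rcases lt_trichotomy (x + y) (x' + y') with h1 | h1 | h1
    · exact (no_lt C.disc h1 e).elim
    · rw [h1, add_assoc _ y y, add_assoc _ y' y'] at e
      have e2 := dbl (add_left_cancel e)
      rw [e2] at h1
      have e3 := add_right_cancel h1
      rw [e2, e3]
    · exact (no_lt C.disc h1 e.symm).elim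
  · intro z
    obtain ⟨x, y, h⟩ := r2 z
    rw [hp] at h
    exact ⟨(x, y), dbl h⟩
  · intro v
    have e : cpi.Realize v ↔
        (v 0 + v 1) * (v 0 + v 1 + 1) + v 1 + v 1 = v 2 + v 2 := by
      rw [cpi, Formula.realize_equal]
      simp only [ea_tadd, ea_tmul, ea_t1, C.add, C.mul, C.one, Term.realize_var]
    rw [e, hp]
    exact ⟨fun h => dbl h, fun h => by rw [h]⟩

end Pool.Agent.Q214.AR
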