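import Mathlib
import Pool.Agent.Q201.AR.Stm

set_option autoImplicit false

open FirstOrder FirstOrder.Language Pool.Agent.Helper227.EN
open Q201.AR

namespace Pool.Agent.Q214.AR

/-- a formula with free variables in `α ⊕ Fin n` as a bounded formula -/
theorem to_bounded {L : FirstOrder.Language.{0, 0}} {α : Type} {n : ℕ}
    (χ : L.Formula (α ⊕ Fin n)) :
    ∃ ψ : L.BoundedFormula α n, ∀ (M : Type) [L.Structure M] (v : α → M) (xs : Fin n → M),
      ψ.Realize v xs ↔ χ.Realize (Sum.elim v xs) := by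
  refine ⟨(BoundedFormula.relabel (id : α ⊕ Fin n → α ⊕ Fin n) χ : L.BoundedFormula α (n + 0)), ?_⟩
  intro M _ v xs
  rw [Formula.Realize]
  refine (BoundedFormula.realize_relabel (φ := χ) (g := id) (v := v) (xs := xs)).trans ?_
  rw [Function.comp_id]
  have e : (xs ∘ Fin.natAdd n : Fin 0 → M) = default := Subsingleton.elim _ _
  rw [e]
  rfl

theorem term_def {L L' : FirstOrder.Language.{0, 0}} (d : Defs L L') {β : Type} (t : L'.Term β) :
    ∃ g : L.Formula (β ⊕ Unit), ∀ (M : Type) [L.Structure M] [L'.Structure M], d.Holds M →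
      ∀ (w : β → M) (y : M), g.Realize (Sum.elim w (fun _ => y)) ↔ t.realize w = y := by
  induction t with
  | var b =>
    refine ⟨Term.equal (Term.var (Sum.inl b)) (Term.var (Sum.inr ())), ?_⟩
    intro M _ _ _ w y
    rw [Formula.realize_equal]
    simp only [Term.realize_var, Sum.elim_inl, Sum.elim_inr]
  | @func n f ts ih =>
    choose g hg using ih
    let ρ : ∀ l : Fin n, β ⊕ Unit → (β ⊕ Unit) ⊕ Fin n :=
      fun l => Sum.elim (fun b => Sum.inl (Sum.inl b)) (fun _ => Sum.inr l)
    let τ : Fin (n + 1) → (β ⊕ Unit) ⊕ Fin n :=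
      Fin.snoc (α := fun _ => (β ⊕ Unit) ⊕ Fin n) (fun l => Sum.inr l) (Sum.inl (Sum.inr ()))
    refine ⟨Formula.iExs (Fin n) (Formula.iInf (fun l => (g l).relabel (ρ l)) ⊓
      (d.fn f).relabel τ), ?_⟩
    intro M _ _ hd w y
    rw [Formula.realize_iExs]
    have key : ∀ x : Fin n → M, ((Formula.iInf (fun l => (g l).relabel (ρ l)) ⊓
        (d.fn f).relabel τ : L.Formula ((β ⊕ Unit) ⊕ Fin n))).Realize
          (Sum.elim (Sum.elim w fun _ => y) x) ↔
        (∀ l, (ts l).realize w = x l) ∧ Structure.funMap f x = y := by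
      intro x
      rw [Formula.realize_inf, Formula.realize_iInf]
      refine and_congr (forall_congr' fun l => ?_) ?_
      · rw [Formula.realize_relabel, ← hg l M hd w (x l)]
        have e : (Sum.elim (Sum.elim w fun _ => y) x ∘ ρ l) = Sum.elim w fun _ => x l := by
          funext z
          rcases z with z | z
          · rfl
          · rfl
        rw [e]
      · rw [Formula.realize_relabel, ← hd.fn f x y]
        have e : (Sum.elim (Sum.elim w fun _ => y) x ∘ τ) = app x y := by
          funext z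
          refine Fin.lastCases ?_ (fun l => ?_) z
          · simp [τ, app]
          · simp [τ, app]
        rw [e]
    constructor
    · rintro ⟨x, hx⟩
      obtain ⟨h1, h2⟩ := (key x).mp hx
      rw [Term.realize_func]
      rw [show (fun i => (ts i).realize w) = x from funext h1]
      exact h2
    · intro h
      rw [Term.realize_func] at h
      exact ⟨fun i => (ts i).realize w, (key _).mpr ⟨fun _ => rfl, h⟩⟩

theorem bounded_def {L L' : FirstOrder.Language.{0, 0}} (d : Defs L L') {α : Type} {n : ℕ}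
    (φ : L'.BoundedFormula α n) :
    ∃ ψ : L.BoundedFormula α n, ∀ (M : Type) [L.Structure M] [L'.Structure M], d.Holds M →
      ∀ (v : α → M) (xs : Fin n → M), ψ.Realize v xs ↔ φ.Realize v xs := by
  induction φ with
  | falsum => exact ⟨⊥, fun M _ _ _ v xs => Iff.rfl⟩
  | @equal n t₁ t₂ =>
    obtain ⟨g₁, h₁⟩ := term_def d t₁
    obtain ⟨g₂, h₂⟩ := term_def d t₂
    obtain ⟨ψ, hψ⟩ := to_bounded (Formula.iExs Unit (g₁ ⊓ g₂))
    refine ⟨ψ, fun M _ _ hd v xs => ?_⟩
    rw [hψ, Formula.realize_iExs]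
    have e : ∀ i : Unit → M, Sum.elim (Sum.elim v xs) i = Sum.elim (Sum.elim v xs)
        fun _ => i () := fun i => rfl
    constructor
    · rintro ⟨i, hi⟩
      rw [Formula.realize_inf, e, h₁ M hd, h₂ M hd] at hi
      exact hi.1.trans hi.2.symm
    · intro h
      refine ⟨fun _ => t₁.realize (Sum.elim v xs), ?_⟩
      rw [Formula.realize_inf, h₁ M hd, h₂ M hd]
      exact ⟨rfl, h.symm⟩
  | @rel n m R ts =>
    choose g hg using fun l => term_def d (ts l)
    let ρ : ∀ l : Fin m, (α ⊕ Fin n) ⊕ Unit → (α ⊕ Fin n) ⊕ Fin m :=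
      fun l => Sum.elim (fun b => Sum.inl b) (fun _ => Sum.inr l)
    obtain ⟨ψ, hψ⟩ := to_bounded (Formula.iExs (Fin m)
      (Formula.iInf (fun l => (g l).relabel (ρ l)) ⊓ (d.rel R).relabel Sum.inr))
    refine ⟨ψ, fun M _ _ hd v xs => ?_⟩
    rw [hψ, Formula.realize_iExs]
    have key : ∀ x : Fin m → M, ((Formula.iInf (fun l => (g l).relabel (ρ l)) ⊓
        (d.rel R).relabel Sum.inr : L.Formula ((α ⊕ Fin n) ⊕ Fin m))).Realize
          (Sum.elim (Sum.elim v xs) x) ↔
        (∀ l, (ts l).realize (Sum.elim v xs) = x l) ∧ Structure.RelMap R x := by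
      intro x
      rw [Formula.realize_inf, Formula.realize_iInf]
      refine and_congr (forall_congr' fun l => ?_) ?_
      · rw [Formula.realize_relabel, ← hg l M hd _ (x l)]
        have e : (Sum.elim (Sum.elim v xs) x ∘ ρ l) =
            Sum.elim (Sum.elim v xs) fun _ => x l := by
          funext z
          rcases z with z | z
          · rfl
          · rfl
        rw [e]
      · rw [Formula.realize_relabel, ← hd.rel R x]
        rfl
    constructor
    · rintro ⟨x, hx⟩
      obtain ⟨h1, h2⟩ := (key x).mp hx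
      change Structure.RelMap R (fun i => (ts i).realize (Sum.elim v xs))
      rw [show (fun i => (ts i).realize (Sum.elim v xs)) = x from funext h1]
      exact h2
    · intro h
      exact ⟨fun i => (ts i).realize (Sum.elim v xs), (key _).mpr ⟨fun _ => rfl, h⟩⟩
  | imp φ₁ φ₂ ih₁ ih₂ =>
    obtain ⟨ψ₁, h₁⟩ := ih₁
    obtain ⟨ψ₂, h₂⟩ := ih₂
    refine ⟨ψ₁.imp ψ₂, fun M _ _ hd v xs => ?_⟩
    rw [BoundedFormula.realize_imp, BoundedFormula.realize_imp, h₁ M hd, h₂ M hd]
  | all φ ih =>
    obtain ⟨ψ, h⟩ := ih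
    refine ⟨ψ.all, fun M _ _ hd v xs => ?_⟩
    rw [BoundedFormula.realize_all, BoundedFormula.realize_all]
    exact forall_congr' fun a => h M hd v _

/-- JOB T -/
theorem t_T : S_T := by
  intro L L' d α φ
  obtain ⟨ψ, h⟩ := bounded_def d φ
  exact ⟨ψ, fun M _ _ hd v => h M hd v default⟩

end Pool.Agent.Q214.AR
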