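import Pool.Agent.Q201.AR.Stm3

set_option autoImplicit false

/-!
Project AR, part 3, job QUOT: the structure described by a Henkin diagram.
-/

open FirstOrder FirstOrder.Language Pool.Agent.Helper227.EN

namespace Q214.AR.Quo

open Q201.AR

/-- the coded statement is true -/
def T (D : ℕ → Bool) (c : ℕ) (l : List ℕ) : Prop := D (pos c l) = true

theorem nm_upd (l : List ℕ) (i x j : ℕ) : nm (upd l i x) j = if j = i then x else nm l j := by
  unfold upd
  rw [nm, List.getD_eq_getElem?_getD, List.getElem?_map]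
  by_cases hj : j < max l.length (i + 1)
  · rw [List.getElem?_range hj]
    rfl
  · have hj' : max l.length (i + 1) ≤ j := not_lt.mp hj
    have h1 : l.length ≤ j := le_trans (le_max_left _ _) hj'
    have h2 : i + 1 ≤ j := le_trans (le_max_right _ _) hj'
    rw [if_neg (by omega), List.getElem?_eq_none (by rw [List.length_range]; exact hj'), nm,
      List.getD_eq_getElem?_getD, List.getElem?_eq_none h1]
    rfl

section facts
variable {Ax : ℕ → Prop} {D : ℕ → Bool} (h : Avoids (Fb Ax) D)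
include h

theorem nor1 {a b : ℕ} {l : List ℕ} (h1 : T D (cnor a b) l) : ¬ T D a l := by
  intro h2
  obtain ⟨q, hq, hne⟩ := h _ (Fb.nor1 a b l)
  simp only [List.mem_cons, List.not_mem_nil, or_false] at hq
  rcases hq with rfl | rfl
  · exact hne h1
  · exact hne h2

theorem nor2 {a b : ℕ} {l : List ℕ} (h1 : T D (cnor a b) l) : ¬ T D b l := by
  intro h2
  obtain ⟨q, hq, hne⟩ := h _ (Fb.nor2 a b l)
  simp only [List.mem_cons, List.not_mem_nil, or_false] at hq
  rcases hq with rfl | rfl
  · exact hne h1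
  · exact hne h2

theorem nor3 {a b : ℕ} {l : List ℕ} (h1 : ¬ T D a l) (h2 : ¬ T D b l) : T D (cnor a b) l := by
  by_contra h3
  obtain ⟨q, hq, hne⟩ := h _ (Fb.nor3 a b l)
  simp only [List.mem_cons, List.not_mem_nil, or_false] at hq
  rcases hq with rfl | rfl | rfl
  · exact hne (Bool.eq_false_iff.mpr h3)
  · exact hne (Bool.eq_false_iff.mpr h1)
  · exact hne (Bool.eq_false_iff.mpr h2)

theorem ex1 {i a : ℕ} {l : List ℕ} (h1 : T D (cex i a) l) :
    T D a (upd l i (hw (cex i a) l)) := by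
  by_contra h3
  obtain ⟨q, hq, hne⟩ := h _ (Fb.ex1 i a l)
  simp only [List.mem_cons, List.not_mem_nil, or_false] at hq
  rcases hq with rfl | rfl
  · exact hne h1
  · exact hne (Bool.eq_false_iff.mpr h3)

theorem ex2 {i a : ℕ} {l : List ℕ} {x : ℕ} (h1 : T D a (upd l i x)) : T D (cex i a) l := by
  by_contra h3
  obtain ⟨q, hq, hne⟩ := h _ (Fb.ex2 i a l x)
  simp only [List.mem_cons, List.not_mem_nil, or_false] at hq
  rcases hq with rfl | rfl
  · exact hne (Bool.eq_false_iff.mpr h3)
  · exact hne h1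

theorem atom {c : ℕ} {l : List ℕ} (hc : c % 8 < 6) : T D c l ↔ T D (can c l).1 (can c l).2 := by
  constructor
  · intro h1
    by_contra h3
    obtain ⟨q, hq, hne⟩ := h _ (Fb.atom c l true hc)
    simp only [List.mem_cons, List.not_mem_nil, or_false] at hq
    rcases hq with rfl | rfl
    · exact hne h1
    · exact hne (Bool.eq_false_iff.mpr h3)
  · intro h1
    by_contra h3
    obtain ⟨q, hq, hne⟩ := h _ (Fb.atom c l false hc)
    simp only [List.mem_cons, List.not_mem_nil, or_false] at hq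
    rcases hq with rfl | rfl
    · exact hne (Bool.eq_false_iff.mpr h3)
    · exact hne h1

theorem refl (x : ℕ) : T D (ceq 0 1) [x, x] := by
  by_contra h3
  obtain ⟨q, hq, hne⟩ := h _ (Fb.refl x)
  simp only [List.mem_cons, List.not_mem_nil, or_false] at hq
  rcases hq with rfl
  exact hne (Bool.eq_false_iff.mpr h3)

theorem leib1 {c x x' : ℕ} (hc : c % 8 < 6) (h1 : T D c [x]) (h2 : T D (ceq 0 1) [x, x']) :
    T D c [x'] := by
  by_contra h3
  obtain ⟨q, hq, hne⟩ := h _ (Fb.leib1 c x x' hc)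
  simp only [List.mem_cons, List.not_mem_nil, or_false] at hq
  rcases hq with rfl | rfl | rfl
  · exact hne h1
  · exact hne (Bool.eq_false_iff.mpr h3)
  · exact hne h2

theorem leib2 {c x x' y y' : ℕ} (hc : c % 8 < 6) (h1 : T D c [x, y])
    (h2 : T D (ceq 0 1) [x, x']) (h4 : T D (ceq 0 1) [y, y']) : T D c [x', y'] := by
  by_contra h3
  obtain ⟨q, hq, hne⟩ := h _ (Fb.leib2 c x x' y y' hc)
  simp only [List.mem_cons, List.not_mem_nil, or_false] at hq
  rcases hq with rfl | rfl | rfl | rfl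
  · exact hne h1
  · exact hne (Bool.eq_false_iff.mpr h3)
  · exact hne h2
  · exact hne h4

theorem leib3 {c x x' y y' z z' : ℕ} (hc : c % 8 < 6) (h1 : T D c [x, y, z])
    (h2 : T D (ceq 0 1) [x, x']) (h4 : T D (ceq 0 1) [y, y']) (h5 : T D (ceq 0 1) [z, z']) :
    T D c [x', y', z'] := by
  by_contra h3
  obtain ⟨q, hq, hne⟩ := h _ (Fb.leib3 c x x' y y' z z' hc)
  simp only [List.mem_cons, List.not_mem_nil, or_false] at hq
  rcases hq with rfl | rfl | rfl | rfl | rfl
  · exact hne h1
  · exact hne (Bool.eq_false_iff.mpr h3)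
  · exact hne h2
  · exact hne h4
  · exact hne h5

theorem uz {x y : ℕ} (h1 : T D (cz 0) [x]) (h2 : T D (cz 0) [y]) : T D (ceq 0 1) [x, y] := by
  by_contra h3
  obtain ⟨q, hq, hne⟩ := h _ (Fb.uz x y)
  simp only [List.mem_cons, List.not_mem_nil, or_false] at hq
  rcases hq with rfl | rfl | rfl
  · exact hne h1
  · exact hne h2
  · exact hne (Bool.eq_false_iff.mpr h3)

theorem uo {x y : ℕ} (h1 : T D (co 0) [x]) (h2 : T D (co 0) [y]) : T D (ceq 0 1) [x, y] := by
  by_contra h3
  obtain ⟨q, hq, hne⟩ := h _ (Fb.uo x y)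
  simp only [List.mem_cons, List.not_mem_nil, or_false] at hq
  rcases hq with rfl | rfl | rfl
  · exact hne h1
  · exact hne h2
  · exact hne (Bool.eq_false_iff.mpr h3)

theorem ua {x y z z' : ℕ} (h1 : T D (cad 0 1 2) [x, y, z]) (h2 : T D (cad 0 1 2) [x, y, z']) :
    T D (ceq 0 1) [z, z'] := by
  by_contra h3
  obtain ⟨q, hq, hne⟩ := h _ (Fb.ua x y z z')
  simp only [List.mem_cons, List.not_mem_nil, or_false] at hq
  rcases hq with rfl | rfl | rfl
  · exact hne h1
  · exact hne h2
  · exact hne (Bool.eq_false_iff.mpr h3)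

theorem um {x y z z' : ℕ} (h1 : T D (cml 0 1 2) [x, y, z]) (h2 : T D (cml 0 1 2) [x, y, z']) :
    T D (ceq 0 1) [z, z'] := by
  by_contra h3
  obtain ⟨q, hq, hne⟩ := h _ (Fb.um x y z z')
  simp only [List.mem_cons, List.not_mem_nil, or_false] at hq
  rcases hq with rfl | rfl | rfl
  · exact hne h1
  · exact hne h2
  · exact hne (Bool.eq_false_iff.mpr h3)

theorem tz' : T D (cex 0 (cz 0)) [] := by
  by_contra h3
  obtain ⟨q, hq, hne⟩ := h _ Fb.tz
  simp only [List.mem_cons, List.not_mem_nil, or_false] at hq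
  rcases hq with rfl
  exact hne (Bool.eq_false_iff.mpr h3)

theorem to' : T D (cex 0 (co 0)) [] := by
  by_contra h3
  obtain ⟨q, hq, hne⟩ := h _ Fb.to
  simp only [List.mem_cons, List.not_mem_nil, or_false] at hq
  rcases hq with rfl
  exact hne (Bool.eq_false_iff.mpr h3)

theorem ta' (x y : ℕ) : T D (cex 2 (cad 0 1 2)) [x, y] := by
  by_contra h3
  obtain ⟨q, hq, hne⟩ := h _ (Fb.ta x y)
  simp only [List.mem_cons, List.not_mem_nil, or_false] at hq
  rcases hq with rfl
  exact hne (Bool.eq_false_iff.mpr h3)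

theorem tm' (x y : ℕ) : T D (cex 2 (cml 0 1 2)) [x, y] := by
  by_contra h3
  obtain ⟨q, hq, hne⟩ := h _ (Fb.tm x y)
  simp only [List.mem_cons, List.not_mem_nil, or_false] at hq
  rcases hq with rfl
  exact hne (Bool.eq_false_iff.mpr h3)

theorem zex : ∃ z, T D (cz 0) [z] := by
  have := ex1 h (tz' h)
  exact ⟨_, this⟩

theorem oex : ∃ z, T D (co 0) [z] := by
  have := ex1 h (to' h)
  exact ⟨_, this⟩

theorem aex (x y : ℕ) : ∃ z, T D (cad 0 1 2) [x, y, z] := by
  have := ex1 h (ta' h x y)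
  exact ⟨_, this⟩

theorem mex (x y : ℕ) : ∃ z, T D (cml 0 1 2) [x, y, z] := by
  have := ex1 h (tm' h x y)
  exact ⟨_, this⟩

end facts

theorem ceq_mod (i j : ℕ) : ceq i j % 8 < 6 := by unfold ceq; omega
theorem cz_mod (i : ℕ) : cz i % 8 < 6 := by unfold cz; omega
theorem co_mod (i : ℕ) : co i % 8 < 6 := by unfold co; omega
theorem clt_mod (i j : ℕ) : clt i j % 8 < 6 := by unfold clt; omega
theorem cad_mod (i j k : ℕ) : cad i j k % 8 < 6 := by unfold cad; omega
theorem cml_mod (i j k : ℕ) : cml i j k % 8 < 6 := by unfold cml; omega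


theorem can_cz (i : ℕ) (l : List ℕ) : can (cz i) l = (cz 0, [nm l i]) := by
  rw [can, if_pos (by unfold cz; omega), show cz i / 8 = i by unfold cz; omega]

theorem can_co (i : ℕ) (l : List ℕ) : can (co i) l = (co 0, [nm l i]) := by
  rw [can, if_neg (by unfold co; omega), if_pos (by unfold co; omega),
    show co i / 8 = i by unfold co; omega]

theorem can_ceq (i j : ℕ) (l : List ℕ) : can (ceq i j) l = (ceq 0 1, [nm l i, nm l j]) := by
  rw [can, if_neg (by unfold ceq; omega), if_neg (by unfold ceq; omega),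
    if_pos (by unfold ceq; omega), show ceq i j / 8 = Nat.pair i j by unfold ceq; omega]
  simp only [Nat.unpair_pair]

theorem can_clt (i j : ℕ) (l : List ℕ) : can (clt i j) l = (clt 0 1, [nm l i, nm l j]) := by
  rw [can, if_neg (by unfold clt; omega), if_neg (by unfold clt; omega),
    if_neg (by unfold clt; omega), if_pos (by unfold clt; omega),
    show clt i j / 8 = Nat.pair i j by unfold clt; omega]
  simp only [Nat.unpair_pair]

theorem can_cad (i j k : ℕ) (l : List ℕ) :
    can (cad i j k) l = (cad 0 1 2, [nm l i, nm l j, nm l k]) := by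
  rw [can, if_neg (by unfold cad; omega), if_neg (by unfold cad; omega),
    if_neg (by unfold cad; omega), if_neg (by unfold cad; omega), if_pos (by unfold cad; omega),
    show cad i j k / 8 = Nat.pair i (Nat.pair j k) by unfold cad; omega]
  simp only [Nat.unpair_pair]

theorem can_cml (i j k : ℕ) (l : List ℕ) :
    can (cml i j k) l = (cml 0 1 2, [nm l i, nm l j, nm l k]) := by
  rw [can, if_neg (by unfold cml; omega), if_neg (by unfold cml; omega),
    if_neg (by unfold cml; omega), if_neg (by unfold cml; omega), if_neg (by unfold cml; omega),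
    show cml i j k / 8 = Nat.pair i (Nat.pair j k) by unfold cml; omega]
  simp only [Nat.unpair_pair]

/-- the structure on the quotient -/
@[reducible] noncomputable def qStr (s : Setoid ℕ) (z0 o0 : ℕ) (af mf : ℕ → ℕ → ℕ)
    (lt : ℕ → ℕ → Prop) : LA.Structure (Quotient s) where
  funMap := fun {n} f => match n, f with
    | _, AF.zero => fun _ => Quotient.mk s z0
    | _, AF.one => fun _ => Quotient.mk s o0
    | _, AF.add => fun v => Quotient.mk s (af (v 0).out (v 1).out)
    | _, AF.mul => fun v => Quotient.mk s (mf (v 0).out (v 1).out)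
  RelMap := fun {n} r => match n, r with
    | _, AR.lt => fun v => lt (v 0).out (v 1).out

theorem describes {Ax : ℕ → Prop} {D : ℕ → Bool} (h : Avoids (Fb Ax) D) (s : Setoid ℕ)
    (hs : ∀ x y, s x y ↔ T D (ceq 0 1) [x, y]) (z0 o0 : ℕ) (af mf : ℕ → ℕ → ℕ)
    (hz : T D (cz 0) [z0]) (ho : T D (co 0) [o0]) (ha : ∀ x y, T D (cad 0 1 2) [x, y, af x y])
    (hm : ∀ x y, T D (cml 0 1 2) [x, y, mf x y]) (c : ℕ) :
    ∀ l : List ℕ, T D c l ↔ @Sat (Quotient s)
      (qStr s z0 o0 af mf fun x y => T D (clt 0 1) [x, y]) c fun i => Quotient.mk s (nm l i) := by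
  let _ := qStr s z0 o0 af mf fun x y => T D (clt 0 1) [x, y]
  have hout : ∀ x : ℕ, T D (ceq 0 1) [(Quotient.mk s x).out, x] := fun x =>
    (hs _ _).1 (Quotient.exact (Quotient.out_eq _))
  have hout' : ∀ x : ℕ, T D (ceq 0 1) [x, (Quotient.mk s x).out] := fun x =>
    (hs _ _).1 (s.symm ((hs _ _).2 (hout x)))
  have heq : ∀ x y : ℕ, Quotient.mk s x = Quotient.mk s y ↔ T D (ceq 0 1) [x, y] := fun x y =>
    ⟨fun e => (hs _ _).1 (Quotient.exact e), fun e => Quotient.sound ((hs _ _).2 e)⟩
  have hsym : ∀ {x y : ℕ}, T D (ceq 0 1) [x, y] → T D (ceq 0 1) [y, x] := fun e =>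
    (hs _ _).1 (s.symm ((hs _ _).2 e))
  induction c using code_ind with
  | hz i =>
    intro l
    rw [Sat_cz, atom h (cz_mod i), can_cz]
    show _ ↔ Quotient.mk s z0 = Quotient.mk s (nm l i)
    rw [heq]
    exact ⟨fun e => uz h hz e, fun e => leib1 h (cz_mod 0) hz e⟩
  | ho i =>
    intro l
    rw [Sat_co, atom h (co_mod i), can_co]
    show _ ↔ Quotient.mk s o0 = Quotient.mk s (nm l i)
    rw [heq]
    exact ⟨fun e => uo h ho e, fun e => leib1 h (co_mod 0) ho e⟩
  | heq i j =>
    intro l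
    rw [Sat_ceq, atom h (ceq_mod i j), can_ceq]
    exact (heq _ _).symm
  | hlt i j =>
    intro l
    rw [Sat_clt, atom h (clt_mod i j), can_clt]
    show _ ↔ T D (clt 0 1) [(Quotient.mk s (nm l i)).out, (Quotient.mk s (nm l j)).out]
    exact ⟨fun e => leib2 h (clt_mod 0 1) e (hout' _) (hout' _),
      fun e => leib2 h (clt_mod 0 1) e (hout _) (hout _)⟩
  | had i j k =>
    intro l
    rw [Sat_cad, atom h (cad_mod i j k), can_cad]
    show _ ↔ Quotient.mk s (af (Quotient.mk s (nm l i)).out (Quotient.mk s (nm l j)).out) =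
      Quotient.mk s (nm l k)
    rw [heq]
    constructor
    · intro e
      have e' : T D (cad 0 1 2) [(Quotient.mk s (nm l i)).out, (Quotient.mk s (nm l j)).out,
        nm l k] := leib3 h (cad_mod 0 1 2) e (hout' _) (hout' _) (refl h _)
      exact ua h (ha _ _) e'
    · intro e
      exact leib3 h (cad_mod 0 1 2) (ha _ _) (hout _) (hout _) e
  | hml i j k =>
    intro l
    rw [Sat_cml, atom h (cml_mod i j k), can_cml]
    show _ ↔ Quotient.mk s (mf (Quotient.mk s (nm l i)).out (Quotient.mk s (nm l j)).out) =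
      Quotient.mk s (nm l k)
    rw [heq]
    constructor
    · intro e
      have e' : T D (cml 0 1 2) [(Quotient.mk s (nm l i)).out, (Quotient.mk s (nm l j)).out,
        nm l k] := leib3 h (cml_mod 0 1 2) e (hout' _) (hout' _) (refl h _)
      exact um h (hm _ _) e'
    · intro e
      exact leib3 h (cml_mod 0 1 2) (hm _ _) (hout _) (hout _) e
  | hnor a b iha ihb =>
    intro l
    rw [Sat_cnor, ← iha, ← ihb]
    exact ⟨fun e => ⟨nor1 h e, nor2 h e⟩, fun e => nor3 h e.1 e.2⟩
  | hex i a iha =>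
    intro l
    have key : ∀ x : ℕ, (fun j => Quotient.mk s (nm (upd l i x) j)) =
        Function.update (fun j => Quotient.mk s (nm l j)) i (Quotient.mk s x) := by
      intro x
      funext j
      rw [nm_upd, Function.update_apply]
      split_ifs <;> rfl
    rw [Sat_cex]
    constructor
    · intro e
      have e1 := (iha _).1 (ex1 h e)
      rw [key] at e1
      exact ⟨_, e1⟩
    · rintro ⟨x, hx⟩
      obtain ⟨n, rfl⟩ := Quotient.exists_rep x
      rw [← key] at hx
      exact ex2 h ((iha _).2 hx)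

theorem t_QUOT : S_QUOT := by
  intro Ax D h
  have hrefl : ∀ x, T D (ceq 0 1) [x, x] := fun x => refl h x
  have hsym : ∀ {x y : ℕ}, T D (ceq 0 1) [x, y] → T D (ceq 0 1) [y, x] := fun {x y} e =>
    leib2 h (ceq_mod 0 1) (refl h x) e (refl h x)
  have htr : ∀ {x y z : ℕ}, T D (ceq 0 1) [x, y] → T D (ceq 0 1) [y, z] →
      T D (ceq 0 1) [x, z] := fun {x y z} e f => leib2 h (ceq_mod 0 1) e (refl h x) f
  let s : Setoid ℕ := ⟨fun x y => T D (ceq 0 1) [x, y], hrefl, hsym, htr⟩
  obtain ⟨z0, hz⟩ := zex h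
  obtain ⟨o0, ho⟩ := oex h
  choose af ha using aex h
  choose mf hm using mex h
  refine ⟨Quotient s, qStr s z0 o0 af mf fun x y => T D (clt 0 1) [x, y],
    fun x => Quotient.mk s x, Quotient.mk_surjective, ?_⟩
  intro c l
  exact describes h s (fun _ _ => Iff.rfl) z0 o0 af mf hz ho ha hm c l

end Q214.AR.Quo
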